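import Pool.Agent.R489.HB.Stm

set_option autoImplicit false
set_option linter.all false

open Finset

namespace Pool.Agent.R860.HB

open Pool.Agent.R489.HB

section aux

variable {α : Type} [DecidableEq α]

/-- extension by zero -/
def ext (S : Finset α) (h : {x // x ∈ S} → ZMod 2) (x : α) : ZMod 2 :=
  if hx : x ∈ S then h ⟨x, hx⟩ else 0

/-- support -/
def sp (S : Finset α) (h : {x // x ∈ S} → ZMod 2) : Finset α := S.filter (fun x => ext S h x = 1)

lemma sp_sub (S : Finset α) (h : {x // x ∈ S} → ZMod 2) : sp S h ⊆ S := filter_subset _ _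

lemma mem_sp (S : Finset α) (h : {x // x ∈ S} → ZMod 2) (x : α) (hx : x ∈ S) :
    x ∈ sp S h ↔ h ⟨x, hx⟩ = 1 := by
  simp [sp, ext, hx]

lemma sum_eq (S : Finset α) (h : {x // x ∈ S} → ZMod 2) (p : α → Prop) [DecidablePred p] :
    ∑ x : {x // x ∈ S}, (if p x.1 then (1 : ZMod 2) else 0) * h x =
      (((sp S h).filter p).card : ZMod 2) := by
  have z : ∀ a : ZMod 2, a = if a = 1 then 1 else 0 := by decide
  have e1 : ∑ x : {x // x ∈ S}, (if p x.1 then (1 : ZMod 2) else 0) * h x =
      ∑ x ∈ S, (if p x then (1 : ZMod 2) else 0) * ext S h x := by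
    rw [← Finset.sum_coe_sort S (fun x => (if p x then (1 : ZMod 2) else 0) * ext S h x)]
    apply Finset.sum_congr rfl
    intro x _
    simp [ext, x.2]
  rw [e1, Finset.card_filter, sp, Finset.sum_filter, Nat.cast_sum]
  apply Finset.sum_congr rfl
  intro x _
  have := z (ext S h x)
  by_cases h1 : ext S h x = 1
  · simp [h1]
  · rw [if_neg h1] at this
    simp [this]

lemma sp_zero (S : Finset α) (h : {x // x ∈ S} → ZMod 2) (hs : sp S h = ∅) : h = 0 := by
  have z : ∀ a : ZMod 2, a ≠ 1 → a = 0 := by decide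
  funext x
  apply z
  intro hx
  have := (mem_sp S h x.1 x.2).mpr hx
  rw [hs] at this
  simp at this

lemma sp_one (S : Finset α) (h : {x // x ∈ S} → ZMod 2) (hs : sp S h = S) : h = 1 := by
  funext x
  exact (mem_sp S h x.1 x.2).mp (hs.symm ▸ x.2)

lemma sp_of_one (S : Finset α) : sp S (1 : {x // x ∈ S} → ZMod 2) = S := by
  ext x
  constructor
  · intro h; exact sp_sub _ _ h
  · intro h; exact (mem_sp S _ x h).mpr rfl

lemma sp_ind (S T : Finset α) (hT : T ⊆ S) :
    sp S (fun x => if x.1 ∈ T then 1 else 0) = T := by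
  ext x
  constructor
  · intro h
    have hx := sp_sub _ _ h
    have := (mem_sp S _ x hx).mp h
    by_contra hc
    simp [hc] at this
  · intro h
    rw [mem_sp S _ x (hT h)]
    simp [h]

lemma even_iff (n : ℕ) : (n : ZMod 2) = 0 ↔ Even n := ZMod.natCast_eq_zero_iff_even

/-- the incidence matrix -/
def Mt {β : Type} (S : Finset α) (T : Finset β) (r : α → β → Prop) [∀ a b, Decidable (r a b)] :
    Matrix {x // x ∈ S} {y // y ∈ T} (ZMod 2) := fun x y => if r x.1 y.1 then 1 else 0

end aux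

section main

variable {W : Type} [DecidableEq W] (Φ : Finset (Finset W))

lemma edg_card {e : Finset W} (he : e ∈ edg Φ) : e.card = 2 := by
  simp only [edg, mem_biUnion, mem_powersetCard] at he
  obtain ⟨_, _, _, h⟩ := he
  exact h

lemma mem_edg {e : Finset W} : e ∈ edg Φ ↔ (∃ f ∈ Φ, e ⊆ f) ∧ e.card = 2 := by
  simp only [edg, mem_biUnion, mem_powersetCard]
  constructor
  · rintro ⟨f, hf, h1, h2⟩; exact ⟨⟨f, hf, h1⟩, h2⟩
  · rintro ⟨⟨f, hf, h1⟩, h2⟩; exact ⟨f, hf, h1, h2⟩

lemma mem_vts {v : W} : v ∈ vts Φ ↔ ∃ f ∈ Φ, v ∈ f := by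
  simp [vts]

lemma filt_edg {f : Finset W} (hf : f ∈ Φ) : (edg Φ).filter (fun e => e ⊆ f) = f.powersetCard 2 := by
  ext e
  rw [mem_filter, mem_edg, mem_powersetCard]
  constructor
  · rintro ⟨⟨_, h1⟩, h2⟩; exact ⟨h2, h1⟩
  · rintro ⟨h1, h2⟩; exact ⟨⟨⟨f, hf, h1⟩, h2⟩, h1⟩

lemma dc (hΦ : IsTri Φ) : 3 * Φ.card = 2 * (edg Φ).card := by
  have h1 : ∑ f ∈ Φ, ((edg Φ).filter (fun e => e ⊆ f)).card = 3 * Φ.card := by
    rw [Finset.sum_congr rfl (g := fun _ => 3)]
    · simp [mul_comm]
    · intro f hf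
      rw [filt_edg Φ hf, card_powersetCard, hΦ.three f hf]; rfl
  have h2 : ∑ e ∈ edg Φ, (Φ.filter (fun f => e ⊆ f)).card = 2 * (edg Φ).card := by
    rw [Finset.sum_congr rfl (g := fun _ => 2)]
    · simp [mul_comm]
    · intro e he
      exact hΦ.two e he
  rw [← h1, ← h2]
  simp only [Finset.card_filter]
  rw [Finset.sum_comm]

lemma vcount {f : Finset W} (hf : f.card = 3) {v : W} (hv : v ∈ f) :
    ((f.powersetCard 2).filter (fun e => v ∈ e)).card = 2 := by
  have h1 := Finset.card_filter_add_card_filter_not (s := f.powersetCard 2) (fun e => v ∈ e)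
  have h2 : (f.powersetCard 2).filter (fun e => ¬ v ∈ e) = (f.erase v).powersetCard 2 := by
    ext e
    rw [mem_filter, mem_powersetCard, mem_powersetCard, subset_erase]
    tauto
  rw [h2, card_powersetCard, card_powersetCard, card_erase_of_mem hv, hf] at h1
  have : Nat.choose 3 2 = 3 := rfl
  have h3 : Nat.choose (3 - 1) 2 = 1 := rfl
  omega

/-- edges-faces -/
def M2 : Matrix {e // e ∈ edg Φ} {f // f ∈ Φ} (ZMod 2) := Mt (edg Φ) Φ (fun e f => e ⊆ f)

/-- vertices-edges -/
def M1 : Matrix {v // v ∈ vts Φ} {e // e ∈ edg Φ} (ZMod 2) := Mt (vts Φ) (edg Φ) (fun v e => v ∈ e)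

lemma M2_apply (g : {f // f ∈ Φ} → ZMod 2) (e : {e // e ∈ edg Φ}) :
    (M2 Φ).mulVec g e = ((fc (sp Φ g) e.1).card : ZMod 2) := by
  rw [Matrix.mulVec, dotProduct]
  exact sum_eq Φ g (fun f => e.1 ⊆ f)

lemma M1_apply (g : {e // e ∈ edg Φ} → ZMod 2) (v : {v // v ∈ vts Φ}) :
    (M1 Φ).mulVec g v = (((sp (edg Φ) g).filter (fun e => v.1 ∈ e)).card : ZMod 2) := by
  rw [Matrix.mulVec, dotProduct]
  exact sum_eq (edg Φ) g (fun e => v.1 ∈ e)

lemma M1T_apply (g : {v // v ∈ vts Φ} → ZMod 2) (e : {e // e ∈ edg Φ}) :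
    (M1 Φ).transpose.mulVec g e = (((sp (vts Φ) g).filter (fun v => v ∈ e.1)).card : ZMod 2) := by
  rw [Matrix.mulVec, dotProduct]
  exact sum_eq (vts Φ) g (fun v => v ∈ e.1)

lemma ker2 (hΦ : IsTri Φ) : LinearMap.ker (M2 Φ).mulVecLin = Submodule.span (ZMod 2) {1} := by
  apply le_antisymm
  · intro g hg
    rw [LinearMap.mem_ker, Matrix.mulVecLin_apply] at hg
    have h := hΦ.conn (sp Φ g) (sp_sub _ _) (fun e he => by
      have h1 := congrFun hg ⟨e, he⟩
      rw [M2_apply] at h1
      exact (even_iff _).mp h1)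
    rcases h with h | h
    · rw [sp_zero _ _ h]; exact Submodule.zero_mem _
    · rw [sp_one _ _ h]; exact Submodule.mem_span_singleton_self _
  · rw [Submodule.span_singleton_le_iff_mem, LinearMap.mem_ker, Matrix.mulVecLin_apply]
    funext e
    rw [M2_apply, sp_of_one, hΦ.two e.1 e.2]
    rfl

lemma ker0 (hΦ : IsTri Φ) :
    LinearMap.ker (M1 Φ).transpose.mulVecLin = Submodule.span (ZMod 2) {1} := by
  apply le_antisymm
  · intro g hg
    rw [LinearMap.mem_ker, Matrix.mulVecLin_apply] at hg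
    set U := sp (vts Φ) g with hU
    have hev : ∀ e ∈ edg Φ, Even (U.filter (fun v => v ∈ e)).card := by
      intro e he
      have h1 := congrFun hg ⟨e, he⟩
      rw [M1T_apply] at h1
      exact (even_iff _).mp h1
    have hpair : ∀ e ∈ edg Φ, ∀ x ∈ e, ∀ y ∈ e, x ∈ U → y ∈ U := by
      intro e he x hx y hy hxU
      by_contra hyU
      have h2 := edg_card Φ he
      have hxy : x ≠ y := fun h => hyU (h ▸ hxU)
      have he2 : e = {x, y} := by
        symm
        apply Finset.eq_of_subset_of_card_le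
        · intro z hz
          rw [mem_insert, mem_singleton] at hz
          rcases hz with rfl | rfl <;> assumption
        · rw [h2, card_pair hxy]
      have h3 : U.filter (fun v => v ∈ e) = {x} := by
        ext z
        rw [mem_filter, he2, mem_insert, mem_singleton, mem_singleton]
        constructor
        · rintro ⟨hz, rfl | rfl⟩
          · rfl
          · exact absurd hz hyU
        · rintro rfl; exact ⟨hxU, Or.inl rfl⟩
      have h4 := hev e he
      rw [h3, card_singleton] at h4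
      exact absurd h4 (by decide)
    have hface : ∀ f ∈ Φ, ∀ x ∈ f, ∀ y ∈ f, x ∈ U → y ∈ U := by
      intro f hf x hx y hy hxU
      by_cases hxy : x = y
      · exact hxy ▸ hxU
      · refine hpair {x, y} ?_ x (by simp) y (by simp) hxU
        rw [mem_edg]
        refine ⟨⟨f, hf, ?_⟩, card_pair hxy⟩
        intro z hz
        rw [mem_insert, mem_singleton] at hz
        rcases hz with rfl | rfl <;> assumption
    have h := hΦ.conn (Φ.filter (fun f => ∃ x ∈ f, x ∈ U)) (filter_subset _ _) (fun e he => by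
      have h2 := edg_card Φ he
      obtain ⟨x, hx⟩ := Finset.card_pos.mp (by rw [h2]; norm_num : 0 < e.card)
      by_cases hxU : x ∈ U
      · have h3 : fc (Φ.filter (fun f => ∃ x ∈ f, x ∈ U)) e = fc Φ e := by
          unfold fc
          ext f
          rw [mem_filter, mem_filter, mem_filter]
          constructor
          · rintro ⟨⟨h4, _⟩, h5⟩; exact ⟨h4, h5⟩
          · rintro ⟨h4, h5⟩; exact ⟨⟨h4, x, h5 hx, hxU⟩, h5⟩
        rw [h3, hΦ.two e he]
        decide
      · have h3 : fc (Φ.filter (fun f => ∃ x ∈ f, x ∈ U)) e = ∅ := by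
          unfold fc
          rw [Finset.eq_empty_iff_forall_notMem]
          intro f hf
          rw [mem_filter, mem_filter] at hf
          obtain ⟨⟨h4, y, hy, hyU⟩, h5⟩ := hf
          exact hxU (hface f h4 y hy x (h5 hx) hyU)
        rw [h3, card_empty]
        decide)
    rcases h with h | h
    · have : U = ∅ := by
        rw [Finset.eq_empty_iff_forall_notMem]
        intro v hv
        obtain ⟨f, hf, hvf⟩ := (mem_vts Φ).mp (sp_sub _ _ hv)
        have : f ∈ Φ.filter (fun f => ∃ x ∈ f, x ∈ U) := mem_filter.mpr ⟨hf, v, hvf, hv⟩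
        rw [h] at this
        simp at this
      rw [sp_zero _ _ this]; exact Submodule.zero_mem _
    · have : U = vts Φ := by
        apply subset_antisymm (sp_sub _ _)
        intro v hv
        obtain ⟨f, hf, hvf⟩ := (mem_vts Φ).mp hv
        rw [← h, mem_filter] at hf
        obtain ⟨hf, y, hy, hyU⟩ := hf
        exact hface f hf y hy v hvf hyU
      rw [sp_one _ _ this]; exact Submodule.mem_span_singleton_self _
  · rw [Submodule.span_singleton_le_iff_mem, LinearMap.mem_ker, Matrix.mulVecLin_apply]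
    funext e
    rw [M1T_apply, sp_of_one]
    have : (vts Φ).filter (fun v => v ∈ e.1) = e.1 := by
      ext v
      rw [mem_filter]
      constructor
      · exact fun h => h.2
      · intro h
        refine ⟨?_, h⟩
        obtain ⟨⟨f, hf, h1⟩, _⟩ := (mem_edg Φ).mp e.2
        exact (mem_vts Φ).mpr ⟨f, hf, h1 h⟩
    rw [this, edg_card Φ e.2]
    rfl

lemma ker1 (hΦ : IsTri Φ) :
    LinearMap.ker (M1 Φ).mulVecLin = LinearMap.range (M2 Φ).mulVecLin := by
  apply le_antisymm
  · intro h hh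
    rw [LinearMap.mem_ker, Matrix.mulVecLin_apply] at hh
    obtain ⟨Ψ, hΨ, hz⟩ := hΦ.sph (sp (edg Φ) h) (sp_sub _ _) (fun v => by
      by_cases hv : v ∈ vts Φ
      · have h1 := congrFun hh ⟨v, hv⟩
        rw [M1_apply] at h1
        exact (even_iff _).mp h1
      · have : (sp (edg Φ) h).filter (fun e => v ∈ e) = ∅ := by
          rw [Finset.eq_empty_iff_forall_notMem]
          intro e he
          rw [mem_filter] at he
          obtain ⟨⟨f, hf, h1⟩, _⟩ := (mem_edg Φ).mp (sp_sub _ _ he.1)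
          exact hv ((mem_vts Φ).mpr ⟨f, hf, h1 he.2⟩)
        rw [this, card_empty]
        decide)
    refine ⟨fun f => if f.1 ∈ Ψ then 1 else 0, ?_⟩
    rw [Matrix.mulVecLin_apply]
    funext e
    rw [M2_apply, sp_ind Φ Ψ hΨ]
    have h1 := hz e.1 e.2
    rw [mem_sp _ _ _ e.2] at h1
    have z : ∀ a : ZMod 2, a ≠ 1 → a = 0 := by decide
    by_cases h2 : h e = 1
    · have h3 := h1.mp h2
      rw [h2]
      exact ZMod.natCast_eq_one_iff_odd.mpr h3
    · rw [z _ h2]
      rw [even_iff, ← Nat.not_odd_iff_even]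
      exact fun h3 => h2 (h1.mpr h3)
  · rintro _ ⟨g, rfl⟩
    rw [LinearMap.mem_ker, Matrix.mulVecLin_apply, Matrix.mulVecLin_apply, Matrix.mulVec_mulVec]
    have : M1 Φ * M2 Φ = 0 := by
      ext v f
      rw [Matrix.mul_apply]
      have h1 : ∑ e : {e // e ∈ edg Φ}, M1 Φ v e * M2 Φ e f =
          ∑ e ∈ edg Φ, (if v.1 ∈ e ∧ e ⊆ f.1 then (1 : ZMod 2) else 0) := by
        rw [← Finset.sum_coe_sort (edg Φ)
          (fun e => (if v.1 ∈ e ∧ e ⊆ f.1 then (1 : ZMod 2) else 0))]
        apply Finset.sum_congr rfl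
        intro e _
        simp only [M1, M2, Mt]
        by_cases h1 : v.1 ∈ e.1
        · by_cases h2 : e.1 ⊆ f.1
          · simp [h1, h2]
          · simp [h1, h2]
        · simp [h1]
      rw [h1]
      have h2 : ∑ e ∈ edg Φ, (if v.1 ∈ e ∧ e ⊆ f.1 then (1 : ZMod 2) else 0) =
          (((f.1.powersetCard 2).filter (fun e => v.1 ∈ e)).card : ZMod 2) := by
        rw [← filt_edg Φ f.2, filter_filter, card_filter]
        push_cast
        apply Finset.sum_congr rfl
        intro e _
        simp only [and_comm]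
      rw [h2, Matrix.zero_apply]
      by_cases hv : v.1 ∈ f.1
      · rw [vcount (hΦ.three f.1 f.2) hv]; rfl
      · have : (f.1.powersetCard 2).filter (fun e => v.1 ∈ e) = ∅ := by
          rw [Finset.eq_empty_iff_forall_notMem]
          intro e he
          rw [mem_filter, mem_powersetCard] at he
          exact hv (he.1.1 he.2)
        rw [this, card_empty]; rfl
    rw [this, Matrix.zero_mulVec]

lemma euler (hΦ : IsTri Φ) : (vts Φ).card + Φ.card = (edg Φ).card + 2 := by
  have hneΦ : Nonempty {f // f ∈ Φ} := by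
    obtain ⟨f, hf⟩ := hΦ.ne
    exact ⟨⟨f, hf⟩⟩
  have hneV : Nonempty {v // v ∈ vts Φ} := by
    obtain ⟨f, hf⟩ := hΦ.ne
    obtain ⟨x, hx⟩ := Finset.card_pos.mp (by rw [hΦ.three f hf]; norm_num : 0 < f.card)
    exact ⟨⟨x, (mem_vts Φ).mpr ⟨f, hf, hx⟩⟩⟩
  have one2 : (1 : {f // f ∈ Φ} → ZMod 2) ≠ 0 := one_ne_zero
  have one0 : (1 : {v // v ∈ vts Φ} → ZMod 2) ≠ 0 := one_ne_zero
  have r2 := LinearMap.finrank_range_add_finrank_ker (M2 Φ).mulVecLin
  have r1 := LinearMap.finrank_range_add_finrank_ker (M1 Φ).mulVecLin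
  have r0 := LinearMap.finrank_range_add_finrank_ker (M1 Φ).transpose.mulVecLin
  rw [ker2 Φ hΦ, finrank_span_singleton one2, Module.finrank_fintype_fun_eq_card,
    Fintype.card_coe] at r2
  rw [ker0 Φ hΦ, finrank_span_singleton one0, Module.finrank_fintype_fun_eq_card,
    Fintype.card_coe] at r0
  rw [ker1 Φ hΦ, Module.finrank_fintype_fun_eq_card, Fintype.card_coe] at r1
  have ht : (M1 Φ).transpose.rank = (M1 Φ).rank := Matrix.rank_transpose _
  rw [Matrix.rank, Matrix.rank] at ht
  omega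

end main

theorem EUL : Pool.Agent.R489.HB.S_EUL := by
  intro W _ Φ hΦ
  have h1 := dc Φ hΦ
  have h2 := euler Φ hΦ
  omega

end Pool.Agent.R860.HB
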